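import Pool.Agent.Q271.RN.Main

set_option autoImplicit false

/-!
# MP_abf784: a family of oriented graphs with a forest that is k-nice for only finitely many k
-/

namespace Pool.Agent.Results.MP_abf784_co.NotNice

open Pool.Agent.Q271.RN

/-- **MP_abf784, negative answer.** There is a finite family of oriented graphs containing an
oriented forest such that `p_k = q_k` holds for only finitely many positive integers `k`. -/
theorem result : ∃ 𝓕 : Set (Σ n : ℕ, OG (Fin n)), 𝓕.Finite ∧ (∃ F ∈ 𝓕, F.2.under.IsAcyclic) ∧
    {k : ℕ | 1 ≤ k ∧ pk 𝓕 k = qk 𝓕 k}.Finite :=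
  main

end Pool.Agent.Results.MP_abf784_co.NotNice
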